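import Mathlib

/-!
# Point-countable π-bases of `C_p(X)`: reduction to a large point-countable family of open sets
-/

set_option autoImplicit false

open Topology Cardinal Set

namespace Pool.Agent.Hhelper71.Cp

universe u

/-- The topology of pointwise convergence on `C(X, ℝ)`. -/
abbrev pw (X : Type u) [TopologicalSpace X] : TopologicalSpace C(X, ℝ) :=
  TopologicalSpace.induced (fun f : C(X, ℝ) => (f : X → ℝ)) inferInstance

/-- `C_p(X)` has a point-countable π-base. -/
def PCPiBase (X : Type u) [TopologicalSpace X] : Prop :=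
  ∃ 𝓑 : Set (Set C(X, ℝ)), (∀ B ∈ 𝓑, @IsOpen C(X, ℝ) (pw X) B ∧ B.Nonempty) ∧
    (∀ U : Set C(X, ℝ), @IsOpen C(X, ℝ) (pw X) U → U.Nonempty → ∃ B ∈ 𝓑, B ⊆ U) ∧
    (∀ f : C(X, ℝ), {B ∈ 𝓑 | f ∈ B}.Countable)

variable {X : Type u} [TopologicalSpace X]

lemma continuous_eval (x : X) : @Continuous _ _ (pw X) inferInstance (fun f : C(X, ℝ) => f x) := by
  have h : @Continuous _ _ (pw X) inferInstance (fun f : C(X, ℝ) => (f : X → ℝ)) :=
    continuous_induced_dom
  exact @Continuous.comp _ _ _ (pw X) _ _ _ _ (continuous_apply x) h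

/-- basic neighbourhoods -/
lemma exists_basic {U : Set C(X, ℝ)} (hU : @IsOpen C(X, ℝ) (pw X) U) {g : C(X, ℝ)} (hg : g ∈ U) :
    ∃ (F : Finset X) (ε : ℝ), 0 < ε ∧ ∀ f : C(X, ℝ), (∀ x ∈ F, |f x - g x| < ε) → f ∈ U := by
  obtain ⟨V, hV, rfl⟩ := hU
  rw [isOpen_pi_iff] at hV
  obtain ⟨F, u, hu, hsub⟩ := hV (g : X → ℝ) hg
  have h1 : ∀ x ∈ F, ∃ ε > 0, ∀ t, |t - g x| < ε → t ∈ u x := by
    intro x hx
    obtain ⟨ε, hε, h⟩ := Metric.isOpen_iff.1 (hu x hx).1 (g x) (hu x hx).2
    exact ⟨ε, hε, fun t ht => h (by rwa [Metric.mem_ball, Real.dist_eq])⟩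
  choose! ε hε h using h1
  rcases F.eq_empty_or_nonempty with rfl | hF
  · refine ⟨∅, 1, one_pos, fun f _ => hsub ?_⟩
    intro x hx
    simp at hx
  · obtain ⟨x0, hx0, hmin⟩ := F.exists_min_image ε hF
    refine ⟨F, ε x0, hε x0 hx0, fun f hf => hsub ?_⟩
    intro x hx
    exact h x hx _ (lt_of_lt_of_le (hf x hx) (hmin x hx))

/-- injective choice from infinite sets of rationals -/
lemma exists_inj (G : Finset X) (J : X → Set ℚ) (hJ : ∀ x ∈ G, (J x).Infinite) :
    ∃ v : X → ℚ, Set.InjOn v G ∧ ∀ x ∈ G, v x ∈ J x := by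
  classical
  induction G using Finset.induction_on with
  | empty => exact ⟨fun _ => 0, by simp, by simp⟩
  | insert a G ha ih =>
    obtain ⟨v, hv, hvJ⟩ := ih fun x hx => hJ x (Finset.mem_insert_of_mem hx)
    obtain ⟨q, hq, hqn⟩ := (hJ a (Finset.mem_insert_self _ _)).exists_notMem_finset (G.image v)
    refine ⟨Function.update v a q, ?_, ?_⟩
    · intro x hx y hy hxy
      rw [Finset.mem_coe, Finset.mem_insert] at hx hy
      have key : ∀ z ∈ G, Function.update v a q z = v z := fun z hz =>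
        Function.update_of_ne (fun h => ha (by rw [← h]; exact hz)) _ _
      rcases hx with rfl | hx <;> rcases hy with rfl | hy
      · rfl
      · rw [Function.update_self, key y hy] at hxy
        exact absurd (Finset.mem_image.2 ⟨y, hy, hxy.symm⟩) hqn
      · rw [Function.update_self, key x hx] at hxy
        exact absurd (Finset.mem_image.2 ⟨x, hx, hxy⟩) hqn
      · rw [key x hx, key y hy] at hxy
        exact hv hx hy hxy
    · intro x hx
      rcases Finset.mem_insert.1 hx with rfl | hx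
      · rw [Function.update_self]; exact hq
      · rw [Function.update_of_ne (fun h => ha (by rw [← h]; exact hx))]
        exact hvJ x hx

lemma infinite_near (q : ℚ) {ε : ℝ} (hε : 0 < ε) : {r : ℚ | |(r : ℝ) - q| < ε}.Infinite := by
  obtain ⟨δ, hδ, hδε⟩ := exists_rat_btwn hε
  have hδ0 : (0 : ℚ) < δ := by exact_mod_cast hδ
  have : Set.Ioo q (q + δ) ⊆ {r : ℚ | |(r : ℝ) - q| < ε} := by
    intro r hr
    have h1 : (q : ℝ) < r := by exact_mod_cast hr.1
    have h2 : (r : ℝ) < q + δ := by exact_mod_cast hr.2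
    show |(r : ℝ) - q| < ε
    rw [abs_of_pos (by linarith)]
    linarith
  exact (Set.Ioo_infinite (by linarith)).mono this

/-- a continuous function with prescribed values on a finite set -/
lemma exists_extend [T2Space X] [CompactSpace X] (G : Finset X) (v : X → ℝ) :
    ∃ f : C(X, ℝ), ∀ x ∈ G, f x = v x := by
  have hc : IsClosed (G : Set X) := G.finite_toSet.isClosed
  have : DiscreteTopology (G : Set X) := inferInstance
  let g : C((G : Set X), ℝ) := ⟨fun x => v x, continuous_of_discreteTopology⟩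
  obtain ⟨f, hf⟩ := ContinuousMap.exists_restrict_eq hc g
  refine ⟨f, fun x hx => ?_⟩
  have := DFunLike.congr_fun hf ⟨x, hx⟩
  exact this

lemma countable_poly : Countable (Polynomial ℚ) := by
  have := Polynomial.cardinalMk_le_max (R := ℚ)
  rw [← Cardinal.mk_le_aleph0_iff]
  simpa using this

/-- The reduction: it is enough to have a point-countable family of `|X|` many nonempty open
sets. -/
theorem reduction [T2Space X] [CompactSpace X] {ι : Type u} (W : ι → Set C(X, ℝ))
    (hW : ∀ i, @IsOpen C(X, ℝ) (pw X) (W i)) (hne : ∀ i, (W i).Nonempty)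
    (hc : ∀ f, {i | f ∈ W i}.Countable) (h1 : #X ≤ #ι) (h2 : ℵ₀ ≤ #ι) : PCPiBase X := by
  classical
  -- the conditions
  let C := Finset X × (X →₀ ℚ) × ℕ
  have hC : #C ≤ #ι := by
    have e1 : #(Finset X) ≤ #ι := by
      rcases finite_or_infinite X with h | h
      · exact (Cardinal.mk_le_aleph0).trans h2
      · rw [Cardinal.mk_finset_of_infinite]; exact h1
    have e2 : #(X →₀ ℚ) ≤ #ι := by
      rcases finite_or_infinite X with h | h
      · have : Countable (X →₀ ℚ) := inferInstance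
        exact (Cardinal.mk_le_aleph0).trans h2
      · have := Cardinal.mk_finsupp_lift_of_infinite X ℚ
        rw [this]
        refine max_le (by simpa using h1) ?_
        rw [Cardinal.mk_eq_aleph0 ℚ]
        simpa using h2
    have e3 : #C = #(Finset X) * (#(X →₀ ℚ) * Cardinal.lift.{u} #ℕ) := by
      simp only [C, Cardinal.mk_prod, Cardinal.lift_id, Cardinal.lift_uzero]
    rw [e3, Cardinal.mk_nat, Cardinal.lift_aleph0]
    calc _ ≤ #ι * (#ι * #ι) := by gcongr
      _ = #ι := by rw [Cardinal.mul_eq_self h2, Cardinal.mul_eq_self h2]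
  obtain ⟨j⟩ : Nonempty (C ↪ ι) := Cardinal.le_def _ _ |>.1 hC
  -- basic open subsets of `W i` with rational centre
  have hN : ∀ i, ∃ (F : Finset X) (q : X → ℚ) (δ : ℝ), 0 < δ ∧
      ∀ f : C(X, ℝ), (∀ x ∈ F, |f x - q x| < δ) → f ∈ W i := by
    intro i
    obtain ⟨g, hg⟩ := hne i
    obtain ⟨F, ε, hε, h⟩ := exists_basic (hW i) hg
    have : ∀ x, ∃ q : ℚ, |(q : ℝ) - g x| < ε / 2 := fun x => by
      obtain ⟨q, hq1, hq2⟩ := exists_rat_btwn (show g x < g x + ε / 2 by linarith)
      exact ⟨q, by rw [abs_of_pos (by linarith)]; linarith⟩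
    choose q hq using this
    refine ⟨F, q, ε / 2, by linarith, fun f hf => h f fun x hx => ?_⟩
    calc |f x - g x| = |(f x - q x) + (q x - g x)| := by ring_nf
      _ ≤ |f x - q x| + |(q x : ℝ) - g x| := abs_add_le _ _
      _ < ε := by linarith [hf x hx, hq x]
  choose F0 q0 δ0 hδ0 hN using hN
  -- the polynomial
  have hψ : ∀ c : C, ∃ (ψ : Polynomial ℚ) (v : X → ℚ),
      (∀ x ∈ c.1, |(v x : ℝ) - c.2.1 x| < 1 / (c.2.2 + 1 : ℝ)) ∧
      ∀ y ∈ F0 (j c), ψ.eval (v y) = q0 (j c) y := by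
    intro c
    have hpos : (0 : ℝ) < 1 / (c.2.2 + 1 : ℝ) := by positivity
    obtain ⟨v, hinj, hv⟩ := exists_inj (c.1 ∪ F0 (j c))
      (fun x => {r : ℚ | |(r : ℝ) - c.2.1 x| < 1 / (c.2.2 + 1 : ℝ)})
      (fun x _ => infinite_near _ hpos)
    refine ⟨Lagrange.interpolate (F0 (j c)) v (q0 (j c)), v,
      fun x hx => hv x (Finset.mem_union_left _ hx), fun y hy => ?_⟩
    exact Lagrange.eval_interpolate_at_node _ (hinj.mono (by simp)) hy
  choose ψ v hv hψ using hψ
  let B : C → Set C(X, ℝ) := fun c =>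
    {f | (∀ x ∈ c.1, |f x - c.2.1 x| < 1 / (c.2.2 + 1 : ℝ)) ∧
      ∀ y ∈ F0 (j c), |((ψ c).map (algebraMap ℚ ℝ)).eval (f y) - q0 (j c) y| < δ0 (j c)}
  refine ⟨Set.range B, ?_, ?_, ?_⟩
  · rintro _ ⟨c, rfl⟩
    constructor
    · have e : B c = (⋂ x ∈ c.1, {f : C(X, ℝ) | |f x - c.2.1 x| < 1 / (c.2.2 + 1 : ℝ)}) ∩
          ⋂ y ∈ F0 (j c), {f : C(X, ℝ) |
            |((ψ c).map (algebraMap ℚ ℝ)).eval (f y) - q0 (j c) y| < δ0 (j c)} := by
        ext f
        simp [B]
      rw [e]
      let _ := pw X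
      refine IsOpen.inter ?_ ?_
      · refine isOpen_biInter_finset fun x _ => ?_
        exact isOpen_lt (((continuous_eval x).sub continuous_const).abs) continuous_const
      · refine isOpen_biInter_finset fun y _ => ?_
        refine isOpen_lt (((((ψ c).map (algebraMap ℚ ℝ)).continuous.comp
          (continuous_eval y)).sub continuous_const).abs) continuous_const
    · obtain ⟨f, hf⟩ := exists_extend (c.1 ∪ F0 (j c)) (fun x => (v c x : ℝ))
      refine ⟨f, fun x hx => ?_, fun y hy => ?_⟩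
      · rw [hf x (Finset.mem_union_left _ hx)]
        exact hv c x hx
      · rw [hf y (Finset.mem_union_right _ hy)]
        have : ((ψ c).map (algebraMap ℚ ℝ)).eval (v c y : ℝ) = (q0 (j c) y : ℝ) := by
          have h := hψ c y hy
          have e2 : (v c y : ℝ) = algebraMap ℚ ℝ (v c y) := rfl
          rw [e2, Polynomial.eval_map, Polynomial.eval₂_at_apply, h]
          rfl
        rw [this, sub_self, abs_zero]
        exact hδ0 _
  · intro U hU ⟨g, hg⟩
    obtain ⟨F, ε, hε, h⟩ := exists_basic hU hg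
    obtain ⟨n, hn⟩ := exists_nat_one_div_lt (show 0 < ε / 2 by linarith)
    have : ∀ x, ∃ q : ℚ, |(q : ℝ) - g x| < ε / 2 := fun x => by
      obtain ⟨q, hq1, hq2⟩ := exists_rat_btwn (show g x < g x + ε / 2 by linarith)
      exact ⟨q, by rw [abs_of_pos (by linarith)]; linarith⟩
    choose q hq using this
    let qf : X →₀ ℚ := Finsupp.onFinset F (fun x => if x ∈ F then q x else 0) (fun x hx => by
      by_contra h'
      simp [h'] at hx)
    refine ⟨B (F, qf, n), ⟨_, rfl⟩, fun f hf => h f fun x hx => ?_⟩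
    have h1 := hf.1 x hx
    have e : qf x = q x := by simp [qf, hx]
    simp only [e] at h1
    calc |f x - g x| = |(f x - q x) + (q x - g x)| := by ring_nf
      _ ≤ |f x - q x| + |(q x : ℝ) - g x| := abs_add_le _ _
      _ < ε := by linarith [hq x]
  · intro f
    have key : {c : C | f ∈ B c}.Countable := by
      have hsub : {c : C | f ∈ B c} ⊆ ⋃ p : Polynomial ℚ, {c : C | ψ c = p ∧
          ((p.map (algebraMap ℚ ℝ)).toContinuousMap.comp f) ∈ W (j c)} := by
        intro c hc
        refine Set.mem_iUnion.2 ⟨ψ c, rfl, hN (j c) _ fun y hy => ?_⟩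
        exact hc.2 y hy
      have := countable_poly
      refine Set.Countable.mono hsub (Set.countable_iUnion fun p => ?_)
      have h3 : {c : C | ψ c = p ∧ ((p.map (algebraMap ℚ ℝ)).toContinuousMap.comp f) ∈ W (j c)} ⊆
          j ⁻¹' {i | ((p.map (algebraMap ℚ ℝ)).toContinuousMap.comp f) ∈ W i} := fun c hc => hc.2
      exact ((hc _).preimage j.injective).mono h3
    refine (key.image B).mono ?_
    rintro _ ⟨⟨c, rfl⟩, hf⟩
    exact ⟨c, hf, rfl⟩

end Pool.Agent.Hhelper71.Cp
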