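import Pool.Agent.Hhelper71.Cp.Pairs

/-!
# Cells: the finite partitions of `X` generated by finitely many points
-/

set_option autoImplicit false

open Topology Cardinal Set

namespace Pool.Agent.Hhelper71.Cp

universe u

variable {X : Type u} [TopologicalSpace X]

/-- a choice of separating clopen sets -/
structure Sep (V : X → X → Set X) : Prop where
  clopen : ∀ a b, IsClopen (V a b)
  mem : ∀ a b, a ≠ b → a ∈ V a b
  notMem : ∀ a b, a ≠ b → b ∉ V a b

lemma Scattered.exists_sep [T2Space X] [CompactSpace X] (hX : Scattered X) :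
    ∃ V : X → X → Set X, Sep V := by
  have h : ∀ a b : X, ∃ V : Set X, IsClopen V ∧ (a ≠ b → a ∈ V) ∧ (a ≠ b → b ∉ V) := by
    intro a b
    by_cases hab : a = b
    · exact ⟨Set.univ, isClopen_univ, fun h => absurd hab h, fun h => absurd hab h⟩
    · obtain ⟨V, hV, ha, hVb⟩ := hX.exists_clopen (isOpen_compl_singleton (x := b))
        (show a ∈ ({b}ᶜ : Set X) from hab)
      exact ⟨V, hV, fun _ => ha, fun _ hb => hVb hb rfl⟩
  choose V hV h1 h2 using h
  exact ⟨V, hV, h1, h2⟩

/-- the cell of `x` with respect to the finite set `l` -/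
def cell (V : X → X → Set X) (l : Finset X) (x : X) : Set X :=
  {z | ∀ a ∈ l, ∀ b ∈ l, (x ∈ V a b ↔ z ∈ V a b)}

lemma mem_cell_self (V : X → X → Set X) (l : Finset X) (x : X) : x ∈ cell V l x :=
  fun _ _ _ _ => Iff.rfl

lemma cell_isClopen {V : X → X → Set X} (hV : Sep V) (l : Finset X) (x : X) :
    IsClopen (cell V l x) := by
  have e : cell V l x = ⋂ a ∈ l, ⋂ b ∈ l, {z | (x ∈ V a b ↔ z ∈ V a b)} := by
    ext z; simp [cell]
  rw [e]
  refine isClopen_biInter_finset fun a _ => isClopen_biInter_finset fun b _ => ?_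
  by_cases h : x ∈ V a b
  · have : {z | (x ∈ V a b ↔ z ∈ V a b)} = V a b := by ext z; simp [h]
    rw [this]; exact hV.clopen a b
  · have : {z | (x ∈ V a b ↔ z ∈ V a b)} = (V a b)ᶜ := by ext z; simp [h]
    rw [this]; exact (hV.clopen a b).compl

lemma cell_eq_of_mem {V : X → X → Set X} {l : Finset X} {x z : X} (h : z ∈ cell V l x) :
    cell V l z = cell V l x := by
  ext w
  constructor
  · intro hw a ha b hb
    exact (h a ha b hb).trans (hw a ha b hb)
  · intro hw a ha b hb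
    exact (h a ha b hb).symm.trans (hw a ha b hb)

lemma cell_anti {V : X → X → Set X} {l l' : Finset X} (h : l ⊆ l') (x : X) :
    cell V l' x ⊆ cell V l x := fun _ hz a ha b hb => hz a (h ha) b (h hb)

lemma finite_cells (V : X → X → Set X) (l : Finset X) : (Set.range (cell V l)).Finite := by
  classical
  let pat : X → Finset (X × X) := fun x => (l ×ˢ l).filter (fun q => x ∈ V q.1 q.2)
  have h1 : (Set.range pat).Finite := by
    refine ((l ×ˢ l).powerset.finite_toSet).subset ?_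
    rintro _ ⟨x, rfl⟩
    simp only [Finset.coe_powerset, Set.mem_preimage, Set.mem_powerset_iff, Finset.coe_subset]
    exact Finset.filter_subset _ _
  have h2 : ∀ x z, pat x = pat z → cell V l x = cell V l z := by
    intro x z h
    apply (cell_eq_of_mem _).symm
    intro a ha b hb
    have : (a, b) ∈ pat x ↔ (a, b) ∈ pat z := by rw [h]
    simpa [pat, ha, hb] using this
  have h3 : Set.range (cell V l) ⊆ (fun P => {z | pat z = P}) '' Set.range pat := by
    rintro _ ⟨x, rfl⟩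
    refine ⟨pat x, ⟨x, rfl⟩, ?_⟩
    ext z
    constructor
    · intro hz
      rw [← h2 z x hz]
      exact mem_cell_self V l z
    · intro hz
      have hz' := hz
      show pat z = pat x
      ext ⟨a, b⟩
      simp only [pat, Finset.mem_filter, Finset.mem_product]
      constructor
      · rintro ⟨⟨ha, hb⟩, h⟩
        exact ⟨⟨ha, hb⟩, (hz a ha b hb).2 h⟩
      · rintro ⟨⟨ha, hb⟩, h⟩
        exact ⟨⟨ha, hb⟩, (hz a ha b hb).1 h⟩
  exact (h1.image _).subset h3

/-- a closed set `D` sees every clopen set through finitely many of its points -/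
lemma sep_closed [CompactSpace X] {V : X → X → Set X} (hV : Sep V) {D : Set X} (hD : IsClosed D)
    {U : Set X} (hU : IsClopen U) : ∃ l : Finset X, (l : Set X) ⊆ D ∧
      ∀ d ∈ D, ∀ d' ∈ D, d' ∈ cell V l d → (d ∈ U ↔ d' ∈ U) := by
  classical
  have hK : IsCompact ((D ∩ U) ×ˢ (D ∩ Uᶜ)) :=
    ((hD.inter hU.isClosed).isCompact).prod ((hD.inter hU.compl.isClosed).isCompact)
  obtain ⟨t, ht⟩ := hK.elim_finite_subcover
    (fun q : D × D => (V q.1 q.2) ×ˢ (V q.1 q.2)ᶜ)
    (fun q => (hV.clopen _ _).isOpen.prod (hV.clopen _ _).compl.isOpen) (by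
      rintro ⟨d, d'⟩ ⟨⟨hd, hdU⟩, ⟨hd', hdU'⟩⟩
      have hne : d ≠ d' := fun h => hdU' (h ▸ hdU)
      exact Set.mem_iUnion.2 ⟨(⟨d, hd⟩, ⟨d', hd'⟩), hV.mem _ _ hne, hV.notMem _ _ hne⟩)
  let l : Finset X := t.image (fun q => (q.1 : X)) ∪ t.image (fun q => (q.2 : X))
  have key : ∀ d ∈ D, ∀ d' ∈ D, d' ∈ cell V l d → d ∈ U → d' ∈ U := by
    intro d hd d' hd' hc hdU
    by_contra hdU'
    have : (d, d') ∈ (D ∩ U) ×ˢ (D ∩ Uᶜ) := ⟨⟨hd, hdU⟩, ⟨hd', hdU'⟩⟩
    obtain ⟨q, hq, h1, h2⟩ := Set.mem_iUnion₂.1 (ht this)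
    have ha : (q.1 : X) ∈ l := Finset.mem_union_left _ (Finset.mem_image_of_mem _ hq)
    have hb : (q.2 : X) ∈ l := Finset.mem_union_right _ (Finset.mem_image_of_mem _ hq)
    exact h2 ((hc _ ha _ hb).1 h1)
  refine ⟨l, ?_, fun d hd d' hd' hc => ⟨key d hd d' hd' hc, key d' hd' d hd ?_⟩⟩
  · intro z hz
    rcases Finset.mem_union.1 (Finset.mem_coe.1 hz) with h | h
    · obtain ⟨q, _, rfl⟩ := Finset.mem_image.1 h
      exact q.1.2
    · obtain ⟨q, _, rfl⟩ := Finset.mem_image.1 h
      exact q.2.2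
  · rw [cell_eq_of_mem hc]
    exact mem_cell_self V l d

end Pool.Agent.Hhelper71.Cp
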