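import Pool.Agent.Hhelper71.Cp.Rank

/-!
# Long chains of closed sets and the resulting pairs of points
-/

set_option autoImplicit false

open Topology Cardinal Set

namespace Pool.Agent.Hhelper71.Cp

universe u

variable {X : Type u} [TopologicalSpace X]

variable {I : Type u} [LinearOrder I] [WellFoundedLT I]

/-- the abstract chain argument -/
lemma chain_countable [CompactSpace X] (S : Setup X) (P : I → Set X) (mono : Monotone P)
    (z r : I → X) (hz : ∀ i j, i < j → z i ∈ P j)
    (hr : ∀ i, r i ∈ P i) (hr' : ∀ i, ∀ l : Finset X, (l : Set X) ⊆ P i → r i ∈ cell S.V l (z i))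
    (hQ : ∀ T : Set I, ¬ T.Countable → (∀ i ∈ T, {j ∈ T | j < i}.Countable) →
      IsClosed (⋃ i ∈ T, P i))
    {U : Set X} (hU : IsClopen U) : {i | ¬ (z i ∈ U ↔ r i ∈ U)}.Countable := by
  classical
  by_contra hT0
  set T0 : Set I := {i | ¬ (z i ∈ U ↔ r i ∈ U)} with hT0def
  set T : Set I := {i ∈ T0 | {j ∈ T0 | j < i}.Countable} with hT
  have hTT0 : T ⊆ T0 := fun i hi => hi.1
  have hTunc : ¬ T.Countable := by
    intro hTc
    have h1 : ∃ i ∈ T0, ¬ {j ∈ T0 | j < i}.Countable := by
      by_contra h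
      push Not at h
      exact hT0 (hTc.mono fun i hi => Set.mem_sep hi (h i hi))
    obtain ⟨i0, hi0, hmin⟩ := WellFounded.has_min (wellFounded_lt (α := I))
      {i | i ∈ T0 ∧ ¬ {j ∈ T0 | j < i}.Countable} h1
    exact hi0.2 (hTc.mono fun j hj => Set.mem_sep hj.1
      (by_contra fun hjc => hmin j ⟨hj.1, hjc⟩ hj.2))
  have hTseg : ∀ i ∈ T, {j ∈ T | j < i}.Countable := fun i hi =>
    hi.2.mono fun _ hj => Set.mem_sep hj.1.1 hj.2
  have hTmax : ∀ i ∈ T, ∃ j ∈ T, i < j := by
    intro i hi
    by_contra h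
    push Not at h
    apply hTunc
    refine ((hTseg i hi).union (Set.countable_singleton i)).mono fun j hj => ?_
    rcases (h j hj).lt_or_eq with h' | h'
    · exact Or.inl ⟨hj, h'⟩
    · exact Or.inr h'
  have hTne : T.Nonempty := by
    rw [Set.nonempty_iff_ne_empty]
    intro h
    exact hTunc (by rw [h]; exact Set.countable_empty)
  obtain ⟨l, hl, hsep⟩ := sep_closed S.hV (hQ T hTunc hTseg) hU
  have hlγ : ∃ γ ∈ T, (l : Set X) ⊆ P γ := by
    clear hsep
    induction l using Finset.induction_on with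
    | empty => obtain ⟨γ, hγ⟩ := hTne; exact ⟨γ, hγ, by simp⟩
    | insert a l ha ih =>
      obtain ⟨γ, hγ, hlγ⟩ := ih (fun w hw => hl (by simp [Finset.mem_coe.1 hw]))
      obtain ⟨γ', hγ', haγ'⟩ := Set.mem_iUnion₂.1
        (hl (by simp : a ∈ ((insert a l : Finset X) : Set X)))
      rcases le_total γ γ' with h | h
      · refine ⟨γ', hγ', fun w hw => ?_⟩
        rcases Finset.mem_insert.1 (Finset.mem_coe.1 hw) with rfl | h'
        · exact haγ'
        · exact mono h (hlγ h')
      · refine ⟨γ, hγ, fun w hw => ?_⟩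
        rcases Finset.mem_insert.1 (Finset.mem_coe.1 hw) with rfl | h'
        · exact mono h haγ'
        · exact hlγ h'
  obtain ⟨γ, hγ, hlγ⟩ := hlγ
  obtain ⟨j, hj, hγj⟩ := hTmax γ hγ
  have h1 : z γ ∈ ⋃ i ∈ T, P i := Set.mem_iUnion₂.2 ⟨j, hj, hz γ j hγj⟩
  have h2 : r γ ∈ ⋃ i ∈ T, P i := Set.mem_iUnion₂.2 ⟨γ, hγ, hr γ⟩
  exact (hTT0 hγ) (hsep _ h1 _ h2 (hr' γ l hlγ))

omit [TopologicalSpace X] in
/-- recursion along a well-order -/
lemma exists_chain (H : Set X → Set X) (G : I → Set X → Set X) :
    ∃ P : I → Set X, ∀ j, P j = H (⋃ i : Set.Iio j, G i (P i)) := by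
  classical
  let P : I → Set X := WellFoundedLT.fix (fun j F =>
    H (⋃ i : {i : I // i < j}, G i.1 (F i.1 i.2)))
  refine ⟨P, fun j => ?_⟩
  simp only [P]
  rw [WellFoundedLT.fix_eq]
  rfl

/-- The general construction.  `N P` is a set containing `P`. -/
theorem good_of_chain [T2Space X] [CompactSpace X] (hX : Scattered X) (N : Set X → Set X)
    (hN : ∀ P, P ⊆ N P) (hX0 : ℵ₀ < #X)
    (hsmall : ∀ (S : Setup X) (P : (#X).ord.ToType → Set X) (g : (#X).ord.ToType → Set X → X)
      (e : (#X).ord.ToType → X),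
      (∀ j, P j = S.hull (⋃ i : Set.Iio j, (N (P i) ∪ {g i (P i), e i}))) → ∀ j, #(P j) < #X)
    (hclosed : ∀ (P : (#X).ord.ToType → Set X), Monotone P → (∀ i j, i < j → N (P i) ⊆ P j) →
      (∀ x, ∃ i, ∀ j, i < j → x ∈ P j) →
      ∀ T : Set (#X).ord.ToType, ¬ T.Countable → (∀ i ∈ T, {j ∈ T | j < i}.Countable) →
      IsClosed (⋃ i ∈ T, P i)) : Good X := by
  classical
  have hne : Nonempty X := by
    rw [← Cardinal.mk_ne_zero_iff]
    intro h
    rw [h] at hX0
    exact absurd hX0 (by simp)
  obtain ⟨S⟩ := hX.setup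
  have hcard : #((#X).ord.ToType) = #X := by simp
  obtain ⟨e⟩ := Cardinal.eq.1 hcard
  have hpick : ∀ P : Set X, ∃ x : X, #P < #X → x ∉ P := by
    intro P
    by_cases h : ∃ x, x ∉ P
    · obtain ⟨x, hx⟩ := h
      exact ⟨x, fun _ => hx⟩
    · push Not at h
      refine ⟨Classical.arbitrary X, fun hP => ?_⟩
      have : P = Set.univ := Set.eq_univ_of_forall h
      rw [this, Cardinal.mk_univ] at hP
      exact absurd hP (lt_irrefl _)
  choose zz hzz using hpick
  obtain ⟨P, hP⟩ := exists_chain (I := (#X).ord.ToType) S.hull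
    (fun i Q => N Q ∪ {zz Q, e i})
  have hlt : ∀ j, #(P j) < #X := hsmall S P (fun _ => zz) e hP
  have hstep : ∀ i j, i < j → N (P i) ∪ {zz (P i), e i} ⊆ P j := by
    intro i j hij
    rw [hP j]
    exact (Set.subset_iUnion (fun i : Set.Iio j => N (P i) ∪ {zz (P i), e i}) ⟨i, hij⟩).trans
      (S.subset_hull _)
  have hmono : Monotone P := by
    intro i j hij
    rcases hij.lt_or_eq with h | rfl
    · exact (hN _).trans (Set.subset_union_left.trans (hstep i j h))
    · exact le_rfl
  have hM : ∀ i, S.MClosed (P i) := by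
    intro i
    rw [hP i]
    exact S.hull_mClosed _
  choose r hr hr' using fun i => S.exists_r (hM i) (zz (P i))
  refine ⟨(#X).ord.ToType, fun i => zz (P i), r, ?_, ?_, by rw [hcard], by rw [hcard]; exact hX0.le⟩
  · intro i h
    have h' : zz (P i) = r i := h
    exact hzz (P i) (hlt i) (by rw [h']; exact hr i)
  · intro U hU
    refine chain_countable S P hmono (fun i => zz (P i)) r ?_ hr hr' ?_ hU
    · intro i j hij
      exact hstep i j hij (Or.inr (Or.inl rfl))
    · refine hclosed P hmono (fun i j hij => Set.subset_union_left.trans (hstep i j hij)) ?_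
      intro x
      refine ⟨e.symm x, fun j hj => hstep _ _ hj (Or.inr (Or.inr ?_))⟩
      show x = e (e.symm x)
      simp

/-- Every scattered compact space of size `ℵ₁` is good. -/
theorem good_of_aleph_one [T2Space X] [CompactSpace X] (hX : Scattered X) (h : #X = ℵ₁) :
    Good X := by
  classical
  have hIio : ∀ j : (#X).ord.ToType, (Set.Iio j).Countable := by
    intro j
    rw [← Cardinal.le_aleph0_iff_set_countable]
    have h1 : #(Set.Iio j) < #X := by simpa using Cardinal.mk_Iio_lt j (by simp)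
    exact Cardinal.lt_aleph_one_iff.1 (lt_of_lt_of_eq h1 h)
  refine good_of_chain hX (fun P => P) (fun _ => le_rfl) (by rw [h]; exact aleph0_lt_aleph_one) ?_ ?_
  · intro S P g e hP j
    rw [h, Cardinal.lt_aleph_one_iff, Cardinal.le_aleph0_iff_set_countable]
    induction j using WellFoundedLT.induction with
    | ind j ih =>
      rw [hP j]
      have hc : (⋃ i : Set.Iio j, (P i ∪ {g i (P i), e i})).Countable := by
        have := (hIio j).to_subtype
        refine Set.countable_iUnion fun i => (ih i.1 i.2).union ?_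
        exact (Set.countable_singleton _).insert _
      rw [← Cardinal.le_aleph0_iff_set_countable]
      exact (S.mk_hull _).trans (max_le le_rfl (Cardinal.le_aleph0_iff_set_countable.2 hc))
  · intro P mono _ hex T hT hTseg
    have hcof : ∀ i, ∃ j ∈ T, i < j := by
      intro i
      by_contra hcon
      push Not at hcon
      apply hT
      refine ((hIio i).union (Set.countable_singleton i)).mono fun j hj => ?_
      rcases (hcon j hj).lt_or_eq with h' | h'
      · exact Or.inl h'
      · exact Or.inr h'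
    have : (⋃ i ∈ T, P i) = Set.univ := by
      apply Set.eq_univ_of_forall
      intro x
      obtain ⟨i, hi⟩ := hex x
      obtain ⟨j, hj, hij⟩ := hcof i
      exact Set.mem_iUnion₂.2 ⟨j, hj, hi j hij⟩
    rw [this]
    exact isClosed_univ

/-- countable tightness -/
def CTight (X : Type u) [TopologicalSpace X] : Prop :=
  ∀ (A : Set X) (x : X), x ∈ closure A → ∃ C ⊆ A, C.Countable ∧ x ∈ closure C

lemma Setup.closure_subset [T2Space X] [CompactSpace X] (S : Setup X)
    (hX : Scattered X) (ht : CTight X) (P : Set X) :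
    closure P ⊆ Set.range (fun s : ℕ → P => S.mx (closure (Set.range (fun n => (s n : X))))) := by
  intro x hx
  obtain ⟨C, hCP, hC, hxC⟩ := ht P x hx
  obtain ⟨W, hW, hxW, hWρ⟩ := hX.exists_clopen (S.op x)
    (show x ∈ {y | S.ρ y ≤ S.ρ x} from le_refl (S.ρ x))
  have h1 : x ∈ closure (W ∩ C) := by
    rw [mem_closure_iff] at hxC ⊢
    intro O hO hxO
    obtain ⟨y, hy, hyC⟩ := hxC (O ∩ W) (hO.inter hW.isOpen) ⟨hxO, hxW⟩
    exact ⟨y, hy.1, hy.2, hyC⟩
  have hne : (W ∩ C).Nonempty := by
    rw [← closure_nonempty_iff]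
    exact ⟨x, h1⟩
  obtain ⟨s, hs⟩ := (hC.mono Set.inter_subset_right).exists_eq_range hne
  have hsP : ∀ n, s n ∈ P := fun n => by
    have : s n ∈ W ∩ C := by rw [hs]; exact ⟨n, rfl⟩
    exact hCP this.2
  refine ⟨fun n => ⟨s n, hsP n⟩, ?_⟩
  show S.mx (closure (Set.range s)) = x
  rw [← hs]
  have hK : IsCompact (closure (W ∩ C)) := isClosed_closure.isCompact
  have hKne : (closure (W ∩ C)).Nonempty := ⟨x, h1⟩
  have h2 := S.mx_le _ hK hKne x h1
  have h3 : S.mx (closure (W ∩ C)) ∈ W :=
    (closure_minimal Set.inter_subset_left hW.isClosed) (S.mx_mem _ hK hKne)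
  exact S.inj (le_antisymm (hWρ h3) h2)

lemma closed_of_ctight (ht : CTight X) (P : I → Set X) (mono : Monotone P)
    (hcl : ∀ i j, i < j → closure (P i) ⊆ P j) (T : Set I) (hT : ¬ T.Countable)
    (hTseg : ∀ i ∈ T, {j ∈ T | j < i}.Countable) : IsClosed (⋃ i ∈ T, P i) := by
  classical
  have hTmax : ∀ i ∈ T, ∃ j ∈ T, i < j := by
    intro i hi
    by_contra h
    push Not at h
    apply hT
    refine ((hTseg i hi).union (Set.countable_singleton i)).mono fun j hj => ?_
    rcases (h j hj).lt_or_eq with h' | h'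
    · exact Or.inl ⟨hj, h'⟩
    · exact Or.inr h'
  rw [← closure_subset_iff_isClosed]
  intro x hx
  obtain ⟨C, hC, hCc, hxC⟩ := ht _ x hx
  have h1 : ∀ y : C, ∃ i ∈ T, (y : X) ∈ P i := fun y => by
    obtain ⟨i, hi, hyi⟩ := Set.mem_iUnion₂.1 (hC y.2)
    exact ⟨i, hi, hyi⟩
  choose i hiT hi using h1
  have h2 : ∃ t ∈ T, ∀ y, i y ≤ t := by
    by_contra h
    push Not at h
    apply hT
    have := hCc.to_subtype
    refine (Set.countable_iUnion fun y : C => hTseg (i y) (hiT y)).mono fun t htT => ?_
    obtain ⟨y, hy⟩ := h t htT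
    exact Set.mem_iUnion.2 ⟨y, htT, hy⟩
  obtain ⟨t, htT, hty⟩ := h2
  obtain ⟨t', ht'T, htt'⟩ := hTmax t htT
  refine Set.mem_iUnion₂.2 ⟨t', ht'T, hcl t t' htt' ?_⟩
  exact closure_mono (fun y hy => mono (hty ⟨y, hy⟩) (hi ⟨y, hy⟩)) hxC

/-- Countably tight scattered compact spaces of size `κ` with `λ ^ ℵ₀ < κ` for all `λ < κ`. -/
theorem good_of_ctight [T2Space X] [CompactSpace X] (hX : Scattered X) (ht : CTight X)
    (hX0 : ℵ₀ < #X) (hpow : ∀ c : Cardinal.{u}, c < #X → c ^ ℵ₀ < #X) : Good X := by
  classical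
  have hIio : ∀ j : (#X).ord.ToType, #(Set.Iio j) < #X := by
    intro j
    simpa using Cardinal.mk_Iio_lt j (by simp)
  refine good_of_chain hX closure (fun _ => subset_closure) hX0 ?_ ?_
  · intro S P g e hP j
    have key : #(P j) ≤ (max ℵ₀ #(Set.Iio j)) ^ ℵ₀ := by
      induction j using WellFoundedLT.induction with
      | ind j ih =>
        set c : Cardinal.{u} := (max ℵ₀ #(Set.Iio j)) ^ ℵ₀ with hc
        have hc0 : ℵ₀ ≤ c := (le_max_left _ _).trans (Cardinal.self_le_power _ Cardinal.one_le_aleph0)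
        have hcc : c ^ ℵ₀ = c := by
          rw [hc, ← Cardinal.power_mul, Cardinal.aleph0_mul_aleph0]
        rw [hP j]
        refine (S.mk_hull _).trans (max_le hc0 ?_)
        refine (Cardinal.mk_iUnion_le _).trans ?_
        have h1 : #(Set.Iio j) ≤ c :=
          (le_max_right _ _).trans (Cardinal.self_le_power _ Cardinal.one_le_aleph0)
        have h2 : ∀ i : Set.Iio j, #(closure (P i) ∪ {g i (P i), e i} : Set X) ≤ c := by
          intro i
          refine (Cardinal.mk_union_le _ _).trans ?_
          have h3 : #(P i) ≤ c := by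
            refine (ih i.1 i.2).trans ?_
            rw [hc]
            apply Cardinal.power_le_power_right
            apply max_le_max le_rfl
            exact Cardinal.mk_le_mk_of_subset (Set.Iio_subset_Iio (le_of_lt i.2))
          have h4 : #(closure (P i)) ≤ c := by
            refine (Cardinal.mk_le_mk_of_subset (S.closure_subset hX ht (P i))).trans ?_
            refine Cardinal.mk_range_le.trans ?_
            have h5 : #(ℕ → P i) = #(P i) ^ ℵ₀ := by simp
            rw [h5]
            exact (Cardinal.power_le_power_right h3).trans_eq hcc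
          have h6 : #({g i (P i), e i} : Set X) ≤ c := by
            refine le_trans ?_ hc0
            rw [Cardinal.le_aleph0_iff_set_countable]
            exact (Set.countable_singleton _).insert _
          calc _ ≤ c + c := by gcongr
            _ = c := Cardinal.add_eq_self hc0
        calc _ ≤ c * c := by
              gcongr
              exact ciSup_le' h2
          _ = c := Cardinal.mul_eq_self hc0
    exact key.trans_lt (hpow _ (max_lt hX0 (hIio j)))
  · intro P mono hcl _ T hT hTseg
    exact closed_of_ctight ht P mono hcl T hT hTseg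

/-- Countably tight scattered compact spaces of regular size in which small sets have small
closures. -/
theorem good_of_regular [T2Space X] [CompactSpace X] (hX : Scattered X) (ht : CTight X)
    (hX0 : ℵ₀ < #X) (hreg : (#X).IsRegular)
    (hcl : ∀ P : Set X, #P < #X → #(closure P) < #X) : Good X := by
  classical
  have hIio : ∀ j : (#X).ord.ToType, #(Set.Iio j) < #X := by
    intro j
    simpa using Cardinal.mk_Iio_lt j (by simp)
  refine good_of_chain hX closure (fun _ => subset_closure) hX0 ?_ ?_
  · intro S P g e hP j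
    induction j using WellFoundedLT.induction with
    | ind j ih =>
      rw [hP j]
      refine (S.mk_hull _).trans_lt (max_lt hX0 ?_)
      rw [Cardinal.card_iUnion_lt_iff_forall_of_isRegular hreg (hIio j)]
      intro i
      refine (Cardinal.mk_union_le _ _).trans_lt (Cardinal.add_lt_of_lt hX0.le
        (hcl _ (ih i.1 i.2)) ?_)
      refine lt_of_le_of_lt ?_ hX0
      rw [Cardinal.le_aleph0_iff_set_countable]
      exact (Set.countable_singleton _).insert _
  · intro P mono hcl _ T hT hTseg
    exact closed_of_ctight ht P mono hcl T hT hTseg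

end Pool.Agent.Hhelper71.Cp
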