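import Pool.Agent.Hhelper71.Cp.SmallD
import Pool.Agent.Hhelper71.Cp.Chain

/-!
# The final theorems
-/

set_option autoImplicit false

open Topology Cardinal Set

namespace Pool.Agent.Hhelper71.Cp

universe u

/-- The conditions under which a scattered compact space has enough pairs of points. -/
def Adm (Z : Type u) [TopologicalSpace Z] : Prop :=
  #Z ≤ ℵ₁ ∨ #{z : Z | ∀ V ∈ 𝓝 z, ¬ V.Countable} < #Z ∨
  ((∀ (A : Set Z) (z : Z), z ∈ closure A → ∃ C ⊆ A, C.Countable ∧ z ∈ closure C) ∧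
    ((∀ c : Cardinal.{u}, c < #Z → c ^ ℵ₀ < #Z) ∨
      ((#Z).IsRegular ∧ ∀ A : Set Z, #A < #Z → #(closure A) < #Z)))

variable {X : Type u} [TopologicalSpace X]

theorem good_of_adm [T2Space X] [CompactSpace X] (hX : Scattered X) (hX0 : ℵ₀ < #X)
    (h : Adm X) : Good X := by
  rcases h with h | h | ⟨ht, h | ⟨hreg, h⟩⟩
  · refine good_of_aleph_one hX (le_antisymm h ?_)
    rw [← Cardinal.succ_aleph0]
    exact Order.succ_le_of_lt hX0
  · exact good_of_small hX hX0 h
  · exact good_of_ctight hX ht hX0 h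
  · exact good_of_regular hX ht hX0 hreg h

/-- The main theorem. -/
theorem piBase_of_adm [T2Space X] [CompactSpace X] (hX : Scattered X) (Y : ℕ → Set X)
    (hY : ∀ n, IsClosed (Y n)) (hsup : #X ≤ ⨆ n, #(Y n)) (hadm : ∀ n, Adm (Y n)) :
    PCPiBase X := by
  classical
  by_cases hXc : Countable X
  · exact piBase_of_countable
  have hX0 : ℵ₀ < #X := by
    rw [← not_le, Cardinal.mk_le_aleph0_iff]
    exact hXc
  have hbdd : BddAbove (Set.range fun n => #(Y n)) := Cardinal.bddAbove_of_small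
  have hgood : ∀ n, ℵ₀ < #(Y n) → Good (Y n) := fun n hn => by
    have : CompactSpace (Y n) := isCompact_iff_compactSpace.1 (hY n).isCompact
    exact good_of_adm (hX.subtype _) hn (hadm n)
  have hfam : ∀ n, ∃ (ι : Type u) (x y : ι → X), (∀ i, x i ≠ y i) ∧
      (∀ U : Set X, IsClopen U → {i | ¬ (x i ∈ U ↔ y i ∈ U)}.Countable) ∧
      (ℵ₀ < #(Y n) → #(Y n) ≤ #ι) := by
    intro n
    by_cases hn : ℵ₀ < #(Y n)
    · obtain ⟨ι, x, y, hxy, hc, h1, _⟩ := hgood n hn
      refine ⟨ι, fun i => (x i : X), fun i => (y i : X), fun i h => hxy i (Subtype.ext h),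
        fun U hU => ?_, fun _ => h1⟩
      exact hc (Subtype.val ⁻¹' U) (hU.preimage continuous_subtype_val)
    · exact ⟨PEmpty, fun i => i.elim, fun i => i.elim, fun i => i.elim,
        fun U _ => Set.to_countable _, fun h => absurd h hn⟩
  choose ι x y hxy hc h1 using hfam
  have hlow : ∀ n, ℵ₀ < #(Y n) → #(Y n) ≤ #(Σ n, ι n) := by
    intro n hn
    refine (h1 n hn).trans ?_
    exact Cardinal.mk_le_of_injective (f := fun i : ι n => (⟨n, i⟩ : Σ n, ι n))
      (fun a b h => by simpa using h)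
  have hbig : #X ≤ #(Σ n, ι n) := by
    by_contra h
    rw [not_le] at h
    have h2 : max ℵ₀ #(Σ n, ι n) < ⨆ n, #(Y n) := (max_lt hX0 h).trans_le hsup
    obtain ⟨n, hn⟩ := (lt_ciSup_iff hbdd).1 h2
    exact absurd (hlow n ((le_max_left _ _).trans_lt hn)) (not_le.2 ((le_max_right _ _).trans_lt hn))
  refine piBase_of_pairs hX (ι := Σ n, ι n) (fun i => x i.1 i.2) (fun i => y i.1 i.2)
    (fun i => hxy i.1 i.2) ?_ hbig (hX0.le.trans hbig)
  intro U hU
  have hsub : {i : Σ n, ι n | ¬ (x i.1 i.2 ∈ U ↔ y i.1 i.2 ∈ U)} ⊆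
      ⋃ n, (fun i : ι n => (⟨n, i⟩ : Σ n, ι n)) '' {i | ¬ (x n i ∈ U ↔ y n i ∈ U)} := by
    rintro ⟨n, i⟩ hi
    exact Set.mem_iUnion.2 ⟨n, i, hi, rfl⟩
  exact (Set.countable_iUnion fun n => (hc n U hU).image _).mono hsub

/-- The case of a single closed set. -/
theorem piBase_of_adm_one [T2Space X] [CompactSpace X] (hX : Scattered X) (Y : Set X)
    (hY : IsClosed Y) (h : #X ≤ #Y) (hadm : Adm Y) : PCPiBase X :=
  piBase_of_adm hX (fun _ => Y) (fun _ => hY) (by simpa using h) (fun _ => hadm)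

lemma isClosed_iterate_derivedSet [T1Space X] (n : ℕ) :
    IsClosed (derivedSet^[n] (Set.univ : Set X)) := by
  cases n with
  | zero => exact isClosed_univ
  | succ n => rw [Function.iterate_succ_apply']; exact isClosed_derivedSet _

/-- The case of a small derived set. -/
theorem piBase_of_derived [T2Space X] [CompactSpace X] (hX : Scattered X) (n : ℕ)
    (h : #(derivedSet^[n] (Set.univ : Set X)) ≤ ℵ₁ ∨
      #(derivedSet^[n] (Set.univ : Set X)) < #X) : PCPiBase X := by
  classical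
  by_cases h1 : #X ≤ ℵ₁
  · exact piBase_of_adm_one hX Set.univ isClosed_univ (by simp) (Or.inl (by simpa using h1))
  rw [not_le] at h1
  have h2 : ∃ n, #(derivedSet^[n] (Set.univ : Set X)) < #X :=
    ⟨n, h.elim (fun h => h.trans_lt h1) id⟩
  obtain ⟨m, hm⟩ : ∃ m, Nat.find h2 = m + 1 := by
    refine Nat.exists_eq_succ_of_ne_zero fun h0 => ?_
    have := Nat.find_spec h2
    rw [h0] at this
    simp at this
  have h3 : #X ≤ #(derivedSet^[m] (Set.univ : Set X)) :=
    not_lt.1 (Nat.find_min h2 (by omega))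
  have h4 := Nat.find_spec h2
  rw [hm, Function.iterate_succ_apply'] at h4
  set Z : Set X := derivedSet^[m] (Set.univ : Set X) with hZ
  refine piBase_of_adm_one hX Z (isClosed_iterate_derivedSet m) h3 (Or.inr (Or.inl ?_))
  refine lt_of_le_of_lt ?_ (h4.trans_le h3)
  have h5 : ∀ z : {z : Z | ∀ V ∈ 𝓝 z, ¬ V.Countable}, ((z : Z) : X) ∈ derivedSet Z := by
    rintro ⟨z, hz⟩
    rw [mem_derivedSet, accPt_iff_nhds]
    intro U hU
    by_contra hcon
    push Not at hcon
    refine hz (Subtype.val ⁻¹' U) (continuous_subtype_val.continuousAt.preimage_mem_nhds hU) ?_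
    refine (Set.countable_singleton z).mono fun w hw => ?_
    exact Subtype.ext (hcon w ⟨hw, w.2⟩)
  refine Cardinal.mk_le_of_injective (f := fun z => (⟨_, h5 z⟩ : derivedSet Z)) ?_
  intro a b hab
  have hab' : (((a : Z) : X)) = ((b : Z) : X) := congrArg (fun w : derivedSet Z => (w : X)) hab
  exact Subtype.ext (Subtype.ext hab')

end Pool.Agent.Hhelper71.Cp
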