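import Pool.Agent.Hhelper71.Cp.Basic

/-!
# Many pairs of points which are separated by clopen sets only countably often
-/

set_option autoImplicit false

open Topology Cardinal Set

namespace Pool.Agent.Hhelper71.Cp

universe u

variable {X : Type u} [TopologicalSpace X]

/-- every nonempty subset has an isolated point -/
def Scattered (X : Type u) [TopologicalSpace X] : Prop :=
  ∀ s : Set X, s.Nonempty → ∃ x ∈ s, ∃ U : Set X, IsOpen U ∧ U ∩ s = {x}

lemma Scattered.totallyDisconnected [T1Space X] (h : Scattered X) : TotallyDisconnectedSpace X := by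
  refine ⟨fun s _ hs => ?_⟩
  rcases s.eq_empty_or_nonempty with rfl | hne
  · exact Set.subsingleton_empty
  obtain ⟨x, hx, U, hU, hUs⟩ := h s hne
  have hxU : x ∈ U := by
    have : x ∈ U ∩ s := by rw [hUs]; rfl
    exact this.1
  by_contra hns
  have h2 : (s ∩ {x}ᶜ).Nonempty := by
    by_contra h3
    apply hns
    rw [Set.not_nonempty_iff_eq_empty] at h3
    have h4 : s ⊆ {x} := by
      intro y hy
      by_contra hyx
      have : y ∈ s ∩ {x}ᶜ := ⟨hy, hyx⟩
      rw [h3] at this
      exact this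
    exact Set.subsingleton_singleton.anti h4
  have h5 := hs U {x}ᶜ hU isOpen_compl_singleton (fun y _ => by
    by_cases hy : y = x
    · left; rw [hy]; exact hxU
    · right; exact hy) ⟨x, hx, hxU⟩ h2
  obtain ⟨y, hys, hyU, hyx⟩ := h5
  have : y ∈ U ∩ s := ⟨hyU, hys⟩
  rw [hUs] at this
  exact hyx this

lemma Scattered.exists_clopen [T2Space X] [CompactSpace X] (h : Scattered X) {x : X} {U : Set X}
    (hU : IsOpen U) (hx : x ∈ U) : ∃ V : Set X, IsClopen V ∧ x ∈ V ∧ V ⊆ U := by
  have := h.totallyDisconnected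
  exact compact_exists_isClopen_in_isOpen hU hx

/-- many pairs which are separated by every clopen set only countably often -/
theorem piBase_of_pairs [T2Space X] [CompactSpace X] (hX : Scattered X) {ι : Type u} (x y : ι → X)
    (hxy : ∀ i, x i ≠ y i)
    (hc : ∀ U : Set X, IsClopen U → {i | ¬ (x i ∈ U ↔ y i ∈ U)}.Countable)
    (h1 : #X ≤ #ι) (h2 : ℵ₀ ≤ #ι) : PCPiBase X := by
  refine reduction (fun i => {f : C(X, ℝ) | 1 < |f (x i) - f (y i)|}) ?_ ?_ ?_ h1 h2
  · intro i
    let _ := pw X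
    exact isOpen_lt continuous_const (((continuous_eval (x i)).sub (continuous_eval (y i))).abs)
  · intro i
    classical
    obtain ⟨f, hf⟩ := exists_extend {x i, y i} (fun z => if z = x i then 2 else 0)
    refine ⟨f, ?_⟩
    have e1 := hf (x i) (by simp)
    have e2 := hf (y i) (by simp)
    rw [if_pos rfl] at e1
    rw [if_neg (hxy i).symm] at e2
    show 1 < |f (x i) - f (y i)|
    rw [e1, e2]
    norm_num
  · intro f
    have h3 : ∀ a : X, ∃ V : Set X, IsClopen V ∧ a ∈ V ∧ ∀ z ∈ V, |f z - f a| < 1 / 2 := by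
      intro a
      have hU : IsOpen {z | |f z - f a| < 1 / 2} :=
        isOpen_lt ((f.continuous.sub continuous_const).abs) continuous_const
      obtain ⟨V, hV, ha, hVU⟩ := hX.exists_clopen hU (by simp : a ∈ {z | |f z - f a| < 1 / 2})
      exact ⟨V, hV, ha, fun z hz => hVU hz⟩
    choose V hV ha hVf using h3
    obtain ⟨t, ht⟩ := isCompact_univ.elim_finite_subcover V (fun a => (hV a).isOpen)
      (fun z _ => Set.mem_iUnion.2 ⟨z, ha z⟩)
    have hsub : {i | 1 < |f (x i) - f (y i)|} ⊆ ⋃ a ∈ t, {i | ¬ (x i ∈ V a ↔ y i ∈ V a)} := by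
      intro i hi
      obtain ⟨a, hat, hxa⟩ := Set.mem_iUnion₂.1 (ht (Set.mem_univ (x i)))
      refine Set.mem_iUnion₂.2 ⟨a, hat, fun hiff => ?_⟩
      have hya := hiff.1 hxa
      have b1 := abs_lt.1 (hVf a _ hxa)
      have b2 := abs_lt.1 (hVf a _ hya)
      have b3 : |f (x i) - f (y i)| < 1 := abs_lt.2 ⟨by linarith, by linarith⟩
      have b4 : 1 < |f (x i) - f (y i)| := hi
      linarith
    exact (Set.Countable.biUnion t.countable_toSet fun a _ => hc _ (hV a)).mono hsub

/-- the countable case -/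
theorem piBase_of_countable [T2Space X] [CompactSpace X] [Countable X] : PCPiBase X := by
  refine reduction (ι := ULift.{u} ℕ) (fun _ => Set.univ) (fun _ => ?_)
    (fun _ => ⟨0, trivial⟩) (fun _ => Set.to_countable _) ?_ ?_
  · let _ := pw X
    exact isOpen_univ
  · simp
  · simp

/-- Many pairs of points which every clopen set separates only countably often. -/
def Good (X : Type u) [TopologicalSpace X] : Prop :=
  ∃ (ι : Type u) (x y : ι → X), (∀ i, x i ≠ y i) ∧
    (∀ U : Set X, IsClopen U → {i | ¬ (x i ∈ U ↔ y i ∈ U)}.Countable) ∧ #X ≤ #ι ∧ ℵ₀ ≤ #ι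

lemma Good.piBase [T2Space X] [CompactSpace X] (hX : Scattered X) {Y : Set X} (hY : Good Y)
    (h1 : #X ≤ #Y) : PCPiBase X := by
  obtain ⟨ι, x, y, hxy, hc, h2, h3⟩ := hY
  refine piBase_of_pairs hX (ι := ι) (fun i => (x i : X)) (fun i => (y i : X)) ?_ ?_
    (h1.trans h2) h3
  · intro i h
    exact hxy i (Subtype.ext h)
  · intro U hU
    exact hc (Subtype.val ⁻¹' U) (hU.preimage continuous_subtype_val)

lemma Scattered.subtype (hX : Scattered X) (Y : Set X) : Scattered Y := by
  intro s hs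
  obtain ⟨x, hx, U, hU, hUs⟩ := hX (Subtype.val '' s) (hs.image _)
  obtain ⟨y, hy, rfl⟩ := hx
  refine ⟨y, hy, Subtype.val ⁻¹' U, hU.preimage continuous_subtype_val, ?_⟩
  ext z
  constructor
  · rintro ⟨hzU, hzs⟩
    have : (z : X) ∈ U ∩ Subtype.val '' s := ⟨hzU, z, hzs, rfl⟩
    rw [hUs] at this
    exact Subtype.ext this
  · intro hz
    have hz' : z = y := hz
    rw [hz']
    have : (y : X) ∈ U ∩ Subtype.val '' s := by rw [hUs]; rfl
    exact ⟨this.1, hy⟩

end Pool.Agent.Hhelper71.Cp
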