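import Pool.Agent.Hhelper71.Cp.Cells

/-!
# A rank function on a scattered compact space, and sets closed under top points of cells
-/

set_option autoImplicit false

open Topology Cardinal Set

namespace Pool.Agent.Hhelper71.Cp

universe u

variable {X : Type u} [TopologicalSpace X]

/-- an injective rank whose initial segments are open -/
lemma Scattered.exists_rank [Nonempty X] (hX : Scattered X) :
    ∃ ρ : X → Ordinal.{u}, Function.Injective ρ ∧ ∀ x, IsOpen {y | ρ y ≤ ρ x} := by
  classical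
  have hpick : ∀ s : Set X, ∃ x : X, sᶜ.Nonempty → x ∈ sᶜ ∧ ∃ U : Set X, IsOpen U ∧ U ∩ sᶜ = {x} := by
    intro s
    by_cases h : sᶜ.Nonempty
    · obtain ⟨x, hx, U, hU, hUs⟩ := hX sᶜ h
      exact ⟨x, fun _ => ⟨hx, U, hU, hUs⟩⟩
    · exact ⟨Classical.arbitrary X, fun h' => absurd h' h⟩
  choose pick hpick using hpick
  let f : Ordinal.{u} → X := WellFoundedLT.fix (fun α F =>
    pick (Set.range (fun β : {β : Ordinal.{u} // β < α} => F β.1 β.2)))
  have hf : ∀ α, f α = pick (f '' Set.Iio α) := by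
    intro α
    simp only [f]
    rw [WellFoundedLT.fix_eq]
    congr 1
    ext x
    simp
  -- images of initial segments are open as long as they do not cover
  have hstep : ∀ α, (f '' Set.Iio α)ᶜ.Nonempty → f α ∉ f '' Set.Iio α ∧
      ∃ U : Set X, IsOpen U ∧ U ∩ (f '' Set.Iio α)ᶜ = {f α} := by
    intro α h
    have := hpick _ h
    rw [← hf α] at this
    exact this
  have hcover : ∃ α, f '' Set.Iio α = Set.univ := by
    by_contra h
    push Not at h
    have hne : ∀ α, (f '' Set.Iio α)ᶜ.Nonempty := fun α => by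
      rw [Set.nonempty_compl]
      exact h α
    apply not_injective_of_ordinal f
    intro α β hαβ
    rcases lt_trichotomy α β with h1 | h1 | h1
    · exact absurd ⟨α, h1, hαβ⟩ (hstep β (hne β)).1
    · exact h1
    · exact absurd ⟨β, h1, hαβ.symm⟩ (hstep α (hne α)).1
  have hsurj : ∀ x, ∃ α, f α = x := by
    intro x
    obtain ⟨α, hα⟩ := hcover
    have : x ∈ f '' Set.Iio α := by rw [hα]; trivial
    obtain ⟨β, _, hβ⟩ := this
    exact ⟨β, hβ⟩
  let ρ : X → Ordinal.{u} := fun x => sInf {α | f α = x}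
  have hρ : ∀ x, f (ρ x) = x := fun x => csInf_mem (s := {α | f α = x}) (hsurj x)
  have hρmin : ∀ x β, β < ρ x → f β ≠ x := fun x β hβ h =>
    absurd (csInf_le' (s := {α | f α = x}) h) (not_le.2 hβ)
  have hopen : ∀ α, IsOpen (f '' Set.Iio α) := by
    intro α
    induction α using WellFoundedLT.induction with
    | ind α ih =>
      have e : f '' Set.Iio α = ⋃ β ∈ Set.Iio α, (f '' Set.Iio β ∪ {f β}) := by
        ext x
        simp only [Set.mem_iUnion, Set.mem_union, Set.mem_singleton_iff]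
        constructor
        · rintro ⟨β, hβ, rfl⟩
          exact ⟨β, hβ, Or.inr rfl⟩
        · rintro ⟨β, hβ, h | h⟩
          · obtain ⟨γ, hγ, rfl⟩ := h
            exact ⟨γ, Set.mem_Iio.2 (lt_trans (Set.mem_Iio.1 hγ) hβ), rfl⟩
          · exact ⟨β, hβ, h.symm⟩
      rw [e]
      refine isOpen_biUnion fun β hβ => ?_
      by_cases h : (f '' Set.Iio β)ᶜ.Nonempty
      · obtain ⟨_, U, hU, hUs⟩ := hstep β h
        have e2 : f '' Set.Iio β ∪ {f β} = f '' Set.Iio β ∪ U := by
          rw [← hUs]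
          ext x
          simp only [Set.mem_union, Set.mem_inter_iff, Set.mem_compl_iff]
          tauto
        rw [e2]
        exact (ih β hβ).union hU
      · have e3 : f '' Set.Iio β = Set.univ := by
          rw [Set.not_nonempty_iff_eq_empty] at h
          exact Set.compl_empty_iff.1 h
        rw [e3, Set.univ_union]
        exact isOpen_univ
  refine ⟨ρ, fun x y h => ?_, fun x => ?_⟩
  · rw [← hρ x, ← hρ y, h]
  · have e : {y | ρ y ≤ ρ x} = f '' Set.Iio (Order.succ (ρ x)) := by
      ext y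
      constructor
      · intro hy
        exact ⟨ρ y, Set.mem_Iio.2 (Order.lt_succ_iff.2 hy), hρ y⟩
      · rintro ⟨β, hβ, rfl⟩
        have h1 : ρ (f β) ≤ β := csInf_le' (s := {α | f α = f β}) rfl
        exact h1.trans (Order.lt_succ_iff.1 (Set.mem_Iio.1 hβ))
    rw [e]
    exact hopen _

/-- The data used below: separating clopen sets, a rank and the top points of compact sets. -/
structure Setup (X : Type u) [TopologicalSpace X] where
  V : X → X → Set X
  hV : Sep V
  ρ : X → Ordinal.{u}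
  inj : Function.Injective ρ
  op : ∀ x, IsOpen {y | ρ y ≤ ρ x}
  mx : Set X → X
  mx_mem : ∀ K : Set X, IsCompact K → K.Nonempty → mx K ∈ K
  mx_le : ∀ K : Set X, IsCompact K → K.Nonempty → ∀ y ∈ K, ρ y ≤ ρ (mx K)

lemma Scattered.setup [T2Space X] [CompactSpace X] [Nonempty X] (hX : Scattered X) :
    Nonempty (Setup X) := by
  classical
  obtain ⟨V, hV⟩ := hX.exists_sep
  obtain ⟨ρ, inj, hρ⟩ := hX.exists_rank
  have h : ∀ K : Set X, ∃ m : X, IsCompact K → K.Nonempty → m ∈ K ∧ ∀ y ∈ K, ρ y ≤ ρ m := by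
    intro K
    by_cases hK : IsCompact K ∧ K.Nonempty
    · obtain ⟨t, ht⟩ := hK.1.elim_finite_subcover (fun x : K => {y | ρ y ≤ ρ x}) (fun x => hρ x)
        (fun y hy => Set.mem_iUnion.2 ⟨⟨y, hy⟩, show ρ y ≤ ρ y from le_rfl⟩)
      have hne : t.Nonempty := by
        obtain ⟨y, hy⟩ := hK.2
        obtain ⟨x, hx, _⟩ := Set.mem_iUnion₂.1 (ht hy)
        exact ⟨x, hx⟩
      obtain ⟨x0, hx0, hmax⟩ := t.exists_max_image (fun x => ρ x) hne
      refine ⟨x0, fun _ _ => ⟨x0.2, fun y hy => ?_⟩⟩
      obtain ⟨x, hx, hyx⟩ := Set.mem_iUnion₂.1 (ht hy)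
      exact le_trans hyx (hmax x hx)
    · exact ⟨Classical.arbitrary X, fun h1 h2 => absurd ⟨h1, h2⟩ hK⟩
  choose mx hmx using h
  exact ⟨⟨V, hV, ρ, inj, hρ, mx, fun K h1 h2 => (hmx K h1 h2).1, fun K h1 h2 => (hmx K h1 h2).2⟩⟩

namespace Setup

variable (S : Setup X)

/-- closed under top points of cells -/
def MClosed (P : Set X) : Prop := ∀ l : Finset X, (l : Set X) ⊆ P → ∀ x, S.mx (cell S.V l x) ∈ P

lemma exists_r [CompactSpace X] {P : Set X} (hP : S.MClosed P) (x : X) :
    ∃ p ∈ P, ∀ l : Finset X, (l : Set X) ⊆ P → p ∈ cell S.V l x := by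
  classical
  have hne : {o : Ordinal.{u} | ∃ l : Finset X, (l : Set X) ⊆ P ∧
      o = S.ρ (S.mx (cell S.V l x))}.Nonempty := ⟨_, ∅, by simp, rfl⟩
  obtain ⟨l, hl, hlo⟩ := csInf_mem hne
  refine ⟨S.mx (cell S.V l x), hP l hl x, fun l' hl' => ?_⟩
  have hc : ∀ l : Finset X, IsCompact (cell S.V l x) := fun l =>
    (cell_isClopen S.hV l x).isClosed.isCompact
  have hn : ∀ l : Finset X, (cell S.V l x).Nonempty := fun l => ⟨x, mem_cell_self _ _ _⟩
  have h1 : S.mx (cell S.V (l ∪ l') x) ∈ cell S.V l x :=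
    cell_anti Finset.subset_union_left x (S.mx_mem _ (hc _) (hn _))
  have h2 := S.mx_le _ (hc l) (hn l) _ h1
  have h3 : S.ρ (S.mx (cell S.V l x)) ≤ S.ρ (S.mx (cell S.V (l ∪ l') x)) := by
    rw [← hlo]
    exact csInf_le' ⟨l ∪ l', by simp [hl, hl'], rfl⟩
  have h4 := S.inj (le_antisymm h2 h3)
  rw [← h4]
  exact cell_anti Finset.subset_union_right x (S.mx_mem _ (hc _) (hn _))

/-- one step of the closing process -/
def step (P : Set X) : Set X := P ∪ ⋃ l : Finset P, S.mx '' Set.range (cell S.V (l.map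
  (Function.Embedding.subtype _)))

/-- the closing process -/
def hull (P : Set X) : Set X := ⋃ n : ℕ, S.step^[n] P

lemma subset_hull (P : Set X) : P ⊆ S.hull P := fun _ hx => Set.mem_iUnion.2 ⟨0, hx⟩

lemma iterate_mono (P : Set X) : Monotone fun n => S.step^[n] P := by
  refine monotone_nat_of_le_succ fun n => ?_
  rw [Function.iterate_succ_apply']
  exact Set.subset_union_left

lemma hull_mClosed (P : Set X) : S.MClosed (S.hull P) := by
  classical
  intro l hl x
  have h1 : ∃ n, (l : Set X) ⊆ S.step^[n] P := by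
    induction l using Finset.induction_on with
    | empty => exact ⟨0, by simp⟩
    | insert a l ha ih =>
      obtain ⟨n, hn⟩ := ih (fun z hz => hl (by simp [Finset.mem_coe.1 hz]))
      obtain ⟨m, hm⟩ := Set.mem_iUnion.1 (hl (by simp : a ∈ ((insert a l : Finset X) : Set X)))
      refine ⟨max n m, ?_⟩
      intro z hz
      rcases Finset.mem_insert.1 (Finset.mem_coe.1 hz) with rfl | h
      · exact S.iterate_mono P (le_max_right n m) hm
      · exact S.iterate_mono P (le_max_left n m) (hn h)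
  obtain ⟨n, hn⟩ := h1
  refine Set.mem_iUnion.2 ⟨n + 1, ?_⟩
  rw [Function.iterate_succ_apply']
  right
  refine Set.mem_iUnion.2 ⟨l.subtype (· ∈ S.step^[n] P), cell S.V l x, ⟨x, ?_⟩, rfl⟩
  congr 1
  exact Finset.subtype_map_of_mem hn

lemma mk_step (P : Set X) : #(S.step P) ≤ max ℵ₀ #P := by
  classical
  have h1 : #(Finset P) ≤ max ℵ₀ #P := by
    rcases finite_or_infinite P with h | h
    · exact (Cardinal.mk_le_aleph0).trans (le_max_left _ _)
    · rw [Cardinal.mk_finset_of_infinite]; exact le_max_right _ _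
  have h2 : #(⋃ l : Finset P, S.mx '' Set.range (cell S.V (l.map
      (Function.Embedding.subtype _))) : Set X) ≤ max ℵ₀ #P := by
    refine (Cardinal.mk_iUnion_le _).trans ?_
    calc _ ≤ max ℵ₀ #P * ℵ₀ := by
          gcongr
          refine ciSup_le' fun l => ?_
          exact (Cardinal.le_aleph0_iff_set_countable.2 (((finite_cells S.V _).image _).countable))
      _ ≤ max ℵ₀ #P * max ℵ₀ #P := by gcongr; exact le_max_left _ _
      _ = _ := Cardinal.mul_eq_self (le_max_left _ _)
  refine (Cardinal.mk_union_le _ _).trans ?_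
  calc _ ≤ max ℵ₀ #P + max ℵ₀ #P := by gcongr; exact le_max_right _ _
    _ = _ := Cardinal.add_eq_self (le_max_left _ _)

lemma mk_hull (P : Set X) : #(S.hull P) ≤ max ℵ₀ #P := by
  have h1 : ∀ n : ℕ, #(S.step^[n] P : Set X) ≤ max ℵ₀ #P := by
    intro n
    induction n with
    | zero => exact le_max_right _ _
    | succ n ih =>
      rw [Function.iterate_succ_apply']
      exact (S.mk_step _).trans (max_le (le_max_left _ _) ih)
  unfold hull
  have h2 := Cardinal.mk_iUnion_le_sum_mk_lift (f := fun n : ℕ => S.step^[n] P)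
  have h3 : Cardinal.lift.{0} #(⋃ n : ℕ, S.step^[n] P : Set X) ≤
      Cardinal.lift.{u} #ℕ * max ℵ₀ #P := by
    refine (Cardinal.mk_iUnion_le_lift _).trans ?_
    gcongr
    refine ciSup_le' fun n => ?_
    simpa using h1 n
  rw [Cardinal.lift_uzero, Cardinal.mk_nat, Cardinal.lift_aleph0] at h3
  refine h3.trans ?_
  calc _ ≤ max ℵ₀ #P * max ℵ₀ #P := by gcongr; exact le_max_left _ _
    _ = _ := Cardinal.mul_eq_self (le_max_left _ _)

end Setup

end Pool.Agent.Hhelper71.Cp
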