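import Pool.Agent.Hhelper71.Cp.Cells

/-!
# The case of few points without a countable neighbourhood
-/

set_option autoImplicit false

open Topology Cardinal Set

namespace Pool.Agent.Hhelper71.Cp

universe u

variable {X : Type u} [TopologicalSpace X]

/-- the points of `Y` with no neighbourhood which is countable inside `Y` -/
def unc (Y : Set X) : Set X := {y ∈ Y | ∀ V ∈ 𝓝 y, ¬ (V ∩ Y).Countable}

lemma isClosed_unc {Y : Set X} (hY : IsClosed Y) : IsClosed (unc Y) := by
  rw [← isOpen_compl_iff, isOpen_iff_mem_nhds]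
  intro y hy
  by_cases hyY : y ∈ Y
  · have : ∃ V ∈ 𝓝 y, (V ∩ Y).Countable := by
      by_contra h
      push Not at h
      exact hy ⟨hyY, fun V hV => h V hV⟩
    obtain ⟨V, hV, hc⟩ := this
    filter_upwards [eventually_mem_nhds_iff.2 hV] with z hz hzu
    exact hzu.2 V hz hc
  · filter_upwards [hY.isOpen_compl.mem_nhds hyY] with z hz hzu
    exact hz hzu.1

lemma countable_of_disjoint {Y : Set X} (hY : IsClosed Y) {K : Set X} (hK : IsCompact K)
    (hd : K ∩ unc Y = ∅) : (K ∩ Y).Countable := by
  refine hK.induction_on (p := fun s => (s ∩ Y).Countable) (by simp)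
    (fun s t hst ht => ht.mono (Set.inter_subset_inter_left _ hst))
    (fun s t hs ht => by rw [Set.union_inter_distrib_right]; exact hs.union ht) ?_
  intro x hx
  by_cases hxY : x ∈ Y
  · have : ∃ V ∈ 𝓝 x, (V ∩ Y).Countable := by
      by_contra h
      push Not at h
      have : x ∈ K ∩ unc Y := ⟨hx, hxY, fun V hV => h V hV⟩
      rw [hd] at this
      exact this
    obtain ⟨V, hV, hc⟩ := this
    exact ⟨V, mem_nhdsWithin_of_mem_nhds hV, hc⟩
  · refine ⟨Yᶜ, mem_nhdsWithin_of_mem_nhds (hY.isOpen_compl.mem_nhds hxY), ?_⟩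
    simp

/-- Few points without a countable neighbourhood. -/
theorem good_of_small [T2Space X] [CompactSpace X] (hX : Scattered X) (hX0 : ℵ₀ < #X)
    (h2' : #{x : X | ∀ V ∈ 𝓝 x, ¬ V.Countable} < #X) : Good X := by
  classical
  set Y : Set X := Set.univ with hYdef
  have hY : IsClosed Y := isClosed_univ
  have h1 : #X ≤ #Y := by rw [hYdef, Cardinal.mk_univ]
  have h2 : #(unc Y) < #Y := by
    have e : unc Y = {x : X | ∀ V ∈ 𝓝 x, ¬ V.Countable} := by
      ext x
      simp [unc, hYdef]
    rw [e]
    exact h2'.trans_le h1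
  have hY0 : ℵ₀ < #Y := hX0.trans_le h1
  obtain ⟨V, hV⟩ := hX.exists_sep
  set D := unc Y with hD
  have hDc : IsClosed D := isClosed_unc hY
  -- the points which can be seen to be outside of `D`
  let im : Finset D → Finset X := fun l => l.map (Function.Embedding.subtype _)
  have him : ∀ l : Finset D, ((im l : Finset X) : Set X) ⊆ D := by
    intro l z hz
    simp only [im, Finset.coe_map, Function.Embedding.coe_subtype, Set.mem_image] at hz
    obtain ⟨w, _, rfl⟩ := hz
    exact w.2
  let A : Finset D → Set X := fun l => {z ∈ Y | cell V (im l) z ∩ D = ∅}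
  have hA : ∀ l, (A l).Countable := by
    intro l
    have hsub : A l ⊆ ⋃ c ∈ {c ∈ Set.range (cell V (im l)) | c ∩ D = ∅ ∧ IsClopen c}, c ∩ Y := by
      intro z hz
      refine Set.mem_iUnion₂.2 ⟨cell V (im l) z, ⟨⟨z, rfl⟩, hz.2, cell_isClopen hV _ _⟩, ?_, hz.1⟩
      exact mem_cell_self _ _ _
    refine Set.Countable.mono hsub (Set.Countable.biUnion ?_ ?_)
    · exact ((finite_cells V (im l)).subset (fun c hc => hc.1)).countable
    · intro c hc
      exact countable_of_disjoint hY hc.2.2.isClosed.isCompact hc.2.1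
  set S1 : Set X := ⋃ l, A l with hS1
  have hDY : #(Finset D) < #Y := by
    rcases finite_or_infinite D with h | h
    · exact (Cardinal.mk_le_aleph0).trans_lt hY0
    · rw [Cardinal.mk_finset_of_infinite]; exact h2
  have hS1c : #S1 < #Y := by
    have h3 : #S1 ≤ #(Finset D) * ℵ₀ := by
      refine (Cardinal.mk_iUnion_le _).trans ?_
      gcongr
      exact ciSup_le' fun l => (Cardinal.le_aleph0_iff_set_countable.2 (hA l))
    exact h3.trans_lt (Cardinal.mul_lt_of_lt hY0.le hDY hY0)
  set T : Set X := Y \ (S1 ∪ D) with hT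
  have hTc : #Y ≤ #T := by
    by_contra h
    rw [not_le] at h
    have h3 : Y ⊆ T ∪ (S1 ∪ D) := by
      intro z hz
      by_cases h : z ∈ S1 ∪ D
      · exact Or.inr h
      · exact Or.inl ⟨hz, h⟩
    have h4 : #Y ≤ #T + (#S1 + #D) :=
      (Cardinal.mk_le_mk_of_subset h3).trans ((Cardinal.mk_union_le _ _).trans
        (by gcongr; exact Cardinal.mk_union_le _ _))
    exact absurd (h4.trans_lt (Cardinal.add_lt_of_lt hY0.le h
      (Cardinal.add_lt_of_lt hY0.le hS1c h2))) (lt_irrefl _)
  -- the companion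
  have hφ : ∀ x : T, ∃ d ∈ D, ∀ l : Finset X, (l : Set X) ⊆ D → d ∈ cell V l x := by
    intro x
    have hne : (⋂ l : Finset D, cell V (im l) x ∩ D).Nonempty := by
      refine IsCompact.nonempty_iInter_of_directed_nonempty_isCompact_isClosed _ ?_ ?_ ?_ ?_
      · intro l l'
        refine ⟨l ∪ l', ?_, ?_⟩
        · exact Set.inter_subset_inter_left _ (cell_anti (by
            simp only [im, Finset.map_union]; exact Finset.subset_union_left) _)
        · exact Set.inter_subset_inter_left _ (cell_anti (by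
            simp only [im, Finset.map_union]; exact Finset.subset_union_right) _)
      · intro l
        rw [Set.nonempty_iff_ne_empty]
        intro h
        exact x.2.2 (Or.inl (Set.mem_iUnion.2 ⟨l, x.2.1, h⟩))
      · intro l
        exact ((cell_isClopen hV _ _).isClosed.inter hDc).isCompact
      · intro l
        exact (cell_isClopen hV _ _).isClosed.inter hDc
    obtain ⟨d, hd⟩ := hne
    rw [Set.mem_iInter] at hd
    refine ⟨d, (hd ∅).2, fun l hl => ?_⟩
    have h3 := (hd (l.subtype (· ∈ D))).1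
    have h4 : im (l.subtype (· ∈ D)) = l := by
      simp only [im]
      exact Finset.subtype_map_of_mem hl
    rwa [h4] at h3
  choose φ hφD hφ using hφ
  refine ⟨T, fun i => i.1, φ, ?_, ?_, h1.trans hTc, hY0.le.trans hTc⟩
  · intro i h
    have h' : i.1 = φ i := h
    exact i.2.2 (Or.inr (by rw [h']; exact hφD i))
  · intro U hU
    obtain ⟨l, hl, hsep⟩ := sep_closed hV hDc hU
    have hcnt : ∀ c : Set X, IsClopen c → c ∩ D = ∅ → {i : T | i.1 ∈ c}.Countable := by
      intro c hc hcD
      have h3 := countable_of_disjoint hY hc.isClosed.isCompact hcD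
      have h4 : {i : T | i.1 ∈ c} ⊆ (fun i : T => i.1) ⁻¹' (c ∩ Y) := fun i hi => ⟨hi, i.2.1⟩
      exact (h3.preimage Subtype.val_injective).mono h4
    have hsub : {i : T | ¬ (i.1 ∈ U ↔ φ i ∈ U)} ⊆
        ⋃ c ∈ Set.range (cell V l), ({i : T | i.1 ∈ c \ U ∧ IsClopen c ∧ (c \ U) ∩ D = ∅} ∪
          {i : T | i.1 ∈ c ∩ U ∧ IsClopen c ∧ (c ∩ U) ∩ D = ∅}) := by
      intro i hi
      refine Set.mem_iUnion₂.2 ⟨cell V l i, ⟨_, rfl⟩, ?_⟩
      have hcell := hφ i l hl
      by_cases hφU : φ i ∈ U
      · left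
        have hiU : i.1 ∉ U := fun h => hi ⟨fun _ => hφU, fun _ => h⟩
        refine ⟨⟨mem_cell_self _ _ _, hiU⟩, cell_isClopen hV _ _, ?_⟩
        rw [Set.eq_empty_iff_forall_notMem]
        rintro d ⟨⟨hdc, hdU⟩, hdD⟩
        apply hdU
        refine (hsep (φ i) (hφD i) d hdD ?_).1 hφU
        rw [cell_eq_of_mem hcell]
        exact hdc
      · right
        have hiU : i.1 ∈ U := by
          by_contra h
          exact hi ⟨fun h' => absurd h' h, fun h' => absurd h' hφU⟩
        refine ⟨⟨mem_cell_self _ _ _, hiU⟩, cell_isClopen hV _ _, ?_⟩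
        rw [Set.eq_empty_iff_forall_notMem]
        rintro d ⟨⟨hdc, hdU⟩, hdD⟩
        apply hφU
        refine (hsep (φ i) (hφD i) d hdD ?_).2 hdU
        rw [cell_eq_of_mem hcell]
        exact hdc
    refine Set.Countable.mono hsub (Set.Countable.biUnion (finite_cells V l).countable ?_)
    rintro c -
    refine Set.Countable.union ?_ ?_
    · by_cases h : IsClopen c ∧ (c \ U) ∩ D = ∅
      · exact (hcnt _ (h.1.diff hU) h.2).mono fun i hi => hi.1
      · have : {i : T | i.1 ∈ c \ U ∧ IsClopen c ∧ (c \ U) ∩ D = ∅} = ∅ := by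
          rw [Set.eq_empty_iff_forall_notMem]
          intro i hi
          exact h hi.2
        rw [this]
        exact Set.countable_empty
    · by_cases h : IsClopen c ∧ (c ∩ U) ∩ D = ∅
      · exact (hcnt _ (h.1.inter hU) h.2).mono fun i hi => hi.1
      · have : {i : T | i.1 ∈ c ∩ U ∧ IsClopen c ∧ (c ∩ U) ∩ D = ∅} = ∅ := by
          rw [Set.eq_empty_iff_forall_notMem]
          intro i hi
          exact h hi.2
        rw [this]
        exact Set.countable_empty

end Pool.Agent.Hhelper71.Cp
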